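import Pool.Agent.Helper97.CB.All

/-!
# Covering density of a convex body which contains a large quadrilateral

Let `K` be a planar convex body with area `|K|`, and `θ(K)` its covering density (congruent copies).
The conjecture is `θ(K) ≤ 2π/√27 = 1.2091..` for all `K`; the best bound known for all `K` is
`1.2281772` (Ismailescu 1998). A tiling quadrilateral or hexagon of area `0.827 |K|` inside `K` gives the
conjectured bound.

THEOREM. If `K` has two chords `[a,c]`, `[b,d]` with `|(c - a) × (d - b)| ≥ 1.453 |K|`, then
`θ(K) ≤ 2π/√27`; if `|(c - a) × (d - b)| ≥ 1.354 |K|`, then `θ(K) ≤ 1.22817`. For a convex quadrilateral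
`abcd` inscribed in `K` the cross product of the diagonals is twice the area, so a quadrilateral of area
`0.7265 |K|` (`0.677 |K|`) in `K` suffices; every `K` contains one of area `(2/π) |K| = 0.6366 |K|`.

Proof. In the direction of the first chord let `c` be the longest chord, `W` the width and `D(s)` the
distance of the two extreme chords of length `s`. The hexagon of the two extreme chords of length `s`
and the lowest and highest point of `K` has area `s (W + D(s)) / 2`; the hexagon of the two extreme chords
of length `s` and a longest chord has area `D(s) (s + c) / 2`. Both have a pair of parallel equal sides,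
so two families of translates of it (one reflected) tile the plane, and `θ(K) ≤ |K| / area`. `D` is
concave with integral `|K|`; Jensen's inequality with the values of `D` at two points shows that one of
these hexagons has area at least `3√3/(2π) |K|` if `c W ≥ 1.453 |K|`.
-/

set_option autoImplicit false

open MeasureTheory Set Filter

namespace Pool.Agent.Results.MP_b21509_co.QuadrilateralCriterion

open Helper97.CB

theorem result (K : Set ℂ) (hK : IsBody K) (a b c d : ℂ) (ha : a ∈ K) (hb : b ∈ K) (hc : c ∈ K)
    (hd : d ∈ K) :
    ((1453 / 1000 : ℝ) * area K ≤ |cr (c - a) (d - b)| →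
      theta K ≤ ENNReal.ofReal (2 * Real.pi / Real.sqrt 27)) ∧
    ((1354 / 1000 : ℝ) * area K ≤ |cr (c - a) (d - b)| →
      theta K ≤ ENNReal.ofReal (122817 / 100000)) :=
  ⟨fun h => fi1_conj K hK (Or.inl ⟨a, ha, b, hb, c, hc, d, hd, h⟩),
    fun h => fi1_rec K hK (Or.inl ⟨a, ha, b, hb, c, hc, d, hd, h⟩)⟩

end Pool.Agent.Results.MP_b21509_co.QuadrilateralCriterion
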